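import Pool.Agent.H43.OF.Vec
import Pool.Agent.H43.OF.Cond

/-!
# Feedback arc sets from a (circular) colouring of the arcs incomparable with a face

D is a plane digraph with dicycles of length at least g, r a face, S a set of vertices. The
vertices have colours less than p. For every arc a missing S which is on a dicycle: the colours of
its ends differ by at most p - q, and by at least q if a is incomparable with r, i.e. the left face
of a is not reached from r and its right face does not reach r. Then there are at least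
(q g - (3 q - 2) |S|) / p disjoint feedback arc sets.
-/

namespace H9.CH

open H37.OS H43.OF

variable {V F A : Type*}

/-- The number of arcs of J on a dicycle, from a potential. -/
private theorem count [DecidableEq V] [DecidableEq A] (tl hd : A → V) (S : Finset V)
    (J : Finset A) (p q : ℕ) (s t : ℤ) (hs : 0 ≤ s) (ht : 0 ≤ t) (pot : V → ℤ) (n : ℕ)
    (c : Fin (n + 1) → A) (hc : DiCycle tl hd n c)
    (h : ∀ i, (q : ℤ) + pot (hd (c i)) - pot (tl (c i)) ≤
      (if c i ∈ J then (p : ℤ) else 0) + (if tl (c i) ∈ S then s else 0) +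
        (if hd (c i) ∈ S then t else 0)) :
    (q : ℤ) * (n + 1) ≤ p * ((Finset.univ.filter (fun i => c i ∈ J)).card : ℤ) +
      (s + t) * S.card := by
  have h3 : ∑ i, pot (hd (c i)) = ∑ i, pot (tl (c i)) := by
    rw [← Equiv.sum_comp (Equiv.addRight (1 : Fin (n + 1))) (fun i => pot (tl (c i)))]
    apply Finset.sum_congr rfl
    intro i _
    rw [hc.1 i]
    rfl
  have h4 : ∑ i : Fin (n + 1), ((q : ℤ) + pot (hd (c i)) - pot (tl (c i))) = (q : ℤ) * (n + 1) := by
    rw [Finset.sum_sub_distrib, Finset.sum_add_distrib, h3]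
    simp
    ring
  have h5 : ((Finset.univ.filter (fun i => tl (c i) ∈ S)).card : ℤ) ≤ S.card := by
    have : (Finset.univ.filter (fun i => tl (c i) ∈ S)).card ≤ S.card := by
      apply Finset.card_le_card_of_injOn (fun i => tl (c i))
      · intro i hi
        rw [Finset.mem_coe, Finset.mem_filter] at hi
        exact hi.2
      · intro i _ i' _ hii
        exact hc.2 hii
    exact_mod_cast this
  have h6 : ((Finset.univ.filter (fun i => hd (c i) ∈ S)).card : ℤ) ≤ S.card := by
    have : (Finset.univ.filter (fun i => hd (c i) ∈ S)).card ≤ S.card := by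
      apply Finset.card_le_card_of_injOn (fun i => hd (c i))
      · intro i hi
        rw [Finset.mem_coe, Finset.mem_filter] at hi
        exact hi.2
      · intro i _ i' _ hii
        simp only at hii
        rw [hc.1 i, hc.1 i'] at hii
        have := hc.2 hii
        simpa using this
    exact_mod_cast this
  have h7 := Finset.sum_le_sum (fun i (_ : i ∈ (Finset.univ : Finset (Fin (n + 1)))) => h i)
  rw [h4, Finset.sum_add_distrib, Finset.sum_add_distrib] at h7
  rw [← Finset.sum_filter, ← Finset.sum_filter, ← Finset.sum_filter] at h7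
  simp only [Finset.sum_const, nsmul_eq_mul] at h7
  nlinarith [mul_le_mul_of_nonneg_left h5 hs, mul_le_mul_of_nonneg_left h6 ht]

/-- The theorem. -/
theorem fas_of_col [Finite V] [DecidableEq V] [Fintype A] [DecidableEq A] [Fintype F]
    [DecidableEq F] (tl hd : A → V) (lf rt : A → F) (hdual : DualPair tl hd lf rt) (g : ℕ)
    (hg : ∀ n c, DiCycle tl hd n c → g ≤ n + 1) (r : F)
    (S : Finset V) (p q : ℕ) (hq : 1 ≤ q) (hpq : q ≤ p) (col : V → Fin p)
    (hfar : ∀ a, tl a ∉ S → hd a ∉ S → ¬ Reach lf rt (rt a) (lf a) →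
      (col (hd a) : ℕ) + q ≤ col (tl a) + p ∧ (col (tl a) : ℕ) + q ≤ col (hd a) + p)
    (hcol : ∀ a, tl a ∉ S → hd a ∉ S → ¬ Reach lf rt (rt a) (lf a) → ¬ Reach lf rt r (lf a) →
      ¬ Reach lf rt (rt a) r →
      (col (tl a) : ℕ) + q ≤ col (hd a) ∨ (col (hd a) : ℕ) + q ≤ col (tl a)) :
    HasFas tl hd (fun _ => 1) ((q * g - (3 * q - 2) * S.card + (p - 1)) / p) := by
  classical
  set k := (q * g - (3 * q - 2) * S.card + (p - 1)) / p with hk
  have hp : 1 ≤ p := le_trans hq hpq
  -- from the count to k
  have hkey : ∀ m R : ℕ, g ≤ m → (q : ℤ) * m ≤ p * (R : ℤ) + (3 * q - 2) * S.card → k ≤ R := by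
    intro m R hm hR
    have h1 : q * g ≤ p * R + (3 * q - 2) * S.card := by
      have h2 : (q : ℤ) * g ≤ p * (R : ℤ) + (3 * q - 2) * S.card := by
        refine le_trans ?_ hR
        have : (g : ℤ) ≤ m := by exact_mod_cast hm
        exact mul_le_mul_of_nonneg_left this (by positivity)
      zify [show 2 ≤ 3 * q by omega]
      exact h2
    rw [hk]
    apply Nat.le_of_lt_succ
    rw [Nat.div_lt_iff_lt_mul hp]
    have h3 : q * g - (3 * q - 2) * S.card ≤ p * R := by omega
    have h4 : (R + 1) * p = p * R + p := by ring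
    rw [Nat.succ_eq_add_one, h4]
    omega
  set J : Finset A := Finset.univ.filter (fun a => Reach lf rt (rt a) r ∨
    (¬ Reach lf rt r (lf a) ∧ ((col (tl a) : ℕ) + q ≤ col (hd a) ∨
      (tl a ∈ S ∧ (col (tl a) : ℕ) < col (hd a) + q)))) with hJ
  have hmemJ : ∀ a, a ∈ J ↔ (Reach lf rt (rt a) r ∨
    (¬ Reach lf rt r (lf a) ∧ ((col (tl a) : ℕ) + q ≤ col (hd a) ∨
      (tl a ∈ S ∧ (col (tl a) : ℕ) < col (hd a) + q)))) := by
    intro a
    rw [hJ, Finset.mem_filter]
    simp
  have hpred : ∀ X : Finset F, NoEnter lf rt X → ∀ u v, Reach lf rt u v → v ∈ X → u ∈ X := by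
    intro X hN u v huv hv
    induction huv using Relation.ReflTransGen.head_induction_on with
    | refl => exact hv
    | head hab _ ih =>
      obtain ⟨a, ha1, ha2⟩ := hab
      rw [← ha1]
      exact hN a (ha2 ▸ ih)
  obtain ⟨P, hP1, hP2⟩ := dijoins_of_two lf rt lf rt (fun e => ⟨e, rfl, rfl⟩) r k J
    (Finset.univ \ J) Finset.disjoint_sdiff
    (by
      intro X hX hr hN
      obtain ⟨n, c, hc, hcut⟩ := exists_dicycle_in_cut tl hd lf rt hdual X hX
        (fun hh => hr (hh ▸ Finset.mem_univ r)) hN
      have hinj : Function.Injective c := fun i j hij => hc.2 (by simp only [hij])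
      refine le_trans (hkey (n + 1) (Finset.univ.filter (fun i => c i ∈ J)).card (hg n c hc) ?_)
        (Finset.card_le_card_of_injOn c ?_ (fun i _ j _ hij => hinj hij))
      · push_cast
        have e1 : (3 * (q : ℤ) - 2) = ((q : ℤ) - 1) + (2 * (q : ℤ) - 1) := by ring
        rw [e1]
        apply count tl hd S J p q ((q : ℤ) - 1) (2 * (q : ℤ) - 1) (by omega) (by omega)
          (fun v => ((col v : ℕ) : ℤ)) n c hc
        intro i
        obtain ⟨hi1, hi2⟩ := hcut i
        have a1 : ¬ Reach lf rt r (lf (c i)) := fun hh => hr (hpred X hN _ _ hh hi1)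
        have a2 : ¬ Reach lf rt (rt (c i)) (lf (c i)) := fun hh => hi2 (hpred X hN _ _ hh hi1)
        have b1 := hfar (c i)
        have b2 := hcol (c i)
        have b3 := (col (tl (c i))).2
        have b4 := (col (hd (c i))).2
        have b5 := hmemJ (c i)
        by_cases c1 : tl (c i) ∈ S <;> by_cases c2 : hd (c i) ∈ S <;> by_cases c3 : c i ∈ J <;>
          by_cases c4 : Reach lf rt (rt (c i)) r <;>
          simp only [c1, c2, c3, c4, a1, a2, if_true, if_false, not_true_eq_false,
            not_false_eq_true, true_implies, false_implies, true_or, false_or, true_and,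
            false_and, or_false, true_iff, false_iff, iff_true, iff_false, not_or,
            not_le, not_lt] at b1 b2 b5 ⊢ <;> omega
      · intro i hi
        rw [Finset.mem_coe, Finset.mem_filter] at hi
        rw [Finset.mem_coe, mem_leave]
        exact ⟨hi.2, hcut i⟩)
    (by
      intro Y hY hr hN
      have hN' : NoEnter lf rt Yᶜ := by
        intro a ha
        rw [Finset.mem_compl] at ha ⊢
        exact fun hh => ha (hN a hh)
      obtain ⟨n, c, hc, hcut⟩ := exists_dicycle_in_cut tl hd lf rt hdual Yᶜ
        ⟨r, by simpa using hr⟩ (by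
          intro hh
          obtain ⟨x, hx⟩ := hY
          exact (Finset.mem_compl.1 (Finset.eq_univ_iff_forall.1 hh x)) hx) hN'
      have hinj : Function.Injective c := fun i j hij => hc.2 (by simp only [hij])
      refine le_trans (hkey (n + 1)
        (Finset.univ.filter (fun i => c i ∈ Finset.univ \ J)).card (hg n c hc) ?_)
        (Finset.card_le_card_of_injOn c ?_ (fun i _ j _ hij => hinj hij))
      · push_cast
        have e1 : (3 * (q : ℤ) - 2) = (2 * (q : ℤ) - 1) + ((q : ℤ) - 1) := by ring
        rw [e1]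
        apply count tl hd S (Finset.univ \ J) p q (2 * (q : ℤ) - 1) ((q : ℤ) - 1) (by omega)
          (by omega) (fun v => -((col v : ℕ) : ℤ)) n c hc
        intro i
        obtain ⟨hi1, hi2⟩ := hcut i
        have hrY : r ∈ Yᶜ := by simpa using hr
        have a1 : ¬ Reach lf rt (rt (c i)) r := fun hh => hi2 (hpred Yᶜ hN' _ _ hh hrY)
        have a2 : ¬ Reach lf rt (rt (c i)) (lf (c i)) := fun hh => hi2 (hpred Yᶜ hN' _ _ hh hi1)
        have b1 := hfar (c i)
        have b2 := hcol (c i)
        have b3 := (col (tl (c i))).2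
        have b4 := (col (hd (c i))).2
        have b5 := hmemJ (c i)
        have b6 : c i ∈ Finset.univ \ J ↔ ¬ c i ∈ J := by simp
        simp only [b6]
        by_cases c1 : tl (c i) ∈ S <;> by_cases c2 : hd (c i) ∈ S <;> by_cases c3 : c i ∈ J <;>
          by_cases c4 : Reach lf rt r (lf (c i)) <;>
          simp only [c1, c2, c3, c4, a1, a2, if_true, if_false, not_true_eq_false,
            not_false_eq_true, true_implies, false_implies, true_or, false_or, true_and,
            false_and, or_false, true_iff, false_iff, iff_true, iff_false, not_or,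
            not_le, not_lt] at b1 b2 b5 ⊢ <;> omega
      · intro i hi
        rw [Finset.mem_coe, Finset.mem_filter] at hi
        rw [Finset.mem_coe, mem_leave]
        have h1 := hcut i
        rw [Finset.mem_compl, Finset.mem_compl, not_not] at h1
        exact ⟨hi.2, h1.2, h1.1⟩)
  refine ⟨P, ?_, fun i n c hc => fas_of_dijoin tl hd lf rt hdual (P i) (hP2 i) n c hc.1 hc.2⟩
  intro a
  rw [Finset.card_le_one]
  intro i hi j hj
  rw [Finset.mem_filter] at hi hj
  by_contra hne
  exact Finset.disjoint_left.1 (hP1 i j hne) hi.2 hj.2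

/-- The case of proper colourings. -/
theorem fas_of_chrom [Finite V] [DecidableEq V] [Fintype A] [DecidableEq A] [Fintype F]
    [DecidableEq F] (tl hd : A → V) (lf rt : A → F) (hdual : DualPair tl hd lf rt) (g : ℕ)
    (hg : ∀ n c, DiCycle tl hd n c → g ≤ n + 1) (r : F)
    (S : Finset V) (k : ℕ) (hk : 0 < k) (col : V → Fin k)
    (hcol : ∀ a, tl a ∉ S → hd a ∉ S → ¬ Reach lf rt r (lf a) → ¬ Reach lf rt (rt a) r →
      ¬ Reach lf rt (rt a) (lf a) → col (tl a) ≠ col (hd a)) :
    HasFas tl hd (fun _ => 1) ((g - S.card + (k - 1)) / k) := by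
  have h := fas_of_col tl hd lf rt hdual g hg r S k 1 le_rfl hk col
    (fun a _ _ _ => by
      have h1 := (col (tl a)).2
      have h2 := (col (hd a)).2
      omega)
    (fun a h1 h2 h3 h4 h5 => by
      have h6 : (col (tl a) : ℕ) ≠ col (hd a) := fun hh => hcol a h1 h2 h4 h5 h3 (Fin.ext hh)
      omega)
  have e : 1 * g - (3 * 1 - 2) * S.card + (k - 1) = g - S.card + (k - 1) := by ring_nf
  rw [e] at h
  exact h

end H9.CH
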